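import Mathlib
import Pool.Agent.H21.DiamMaxDef

namespace Pool.Agent.Results.MP_67c69b_co.EvenGirth

open Pool.Agent.H21.DiamMax Real Matrix

def nA : ℕ := 0x23030104a20064a002a220118190030c800ac02089810065080512b10103210401e01009304043810000f807200040f001a50006320015840040003e
def nD : ℕ := 0x9248a4894d248969049149265228b48a48269244a65a28b49241248a2ca48a68a49a0914912d26912914904926894932522924824922ca25269248a41229329929249149209344a4594922924904596914ca2c94d14824914924c94ca49941245249349924a4d20914924da2996c949045249345a4892d24814924d249249224921b6dc44968b4924930924534932494924d049128b45169249348244a68948b4924d241165129a4524934920524924926db709248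
def nL : ℕ := 0x87938183846484057fb57fdf7df07ee284b9857a7c217b4c81b7825d83d884bd83be84907e1e7d5e84e0840380008762861680697e927dd180fb84be854481d183797cbc838a84e27edd84bd7c63831883f7858a80008403800080008473821e855b7f9e871782c885ec7d647c2182c8838a7cc883d884bd7c6383187c3b82e884e084038000800080008a0681af82d07f898365803f857a7c2182c87bd7825d83d884bd7c63831883f7858a80008403800080008000800089ee7f1684bd7fc9854481d183797cbc7bd7825d83d884bd83be849085da8000800084038000800080008000800089e9839183538106857a837984377daa7cc883d884bd83be84907e1e7d5e84e084038000800080008000800080008b047f3a8106857a837984377daa84e27edd84bd7c637b97821582e884e0840380008000800080008000800080008b0b8106857a7c2182c8838a84e27edd84bd83be7d107c3b82e884e08403800080008000800080008000800080008c3c81d183798437855e7f4d7edd84bd83be7d1083f77d5e84e084038000800080008000800080008000800080008c5e83797cbc838a7cc883d884bd83be7d1083f7858a800084038000800080008000800080008000800080008000903b832c840a85928910816b800080008000800080008403800080008000800080008000800080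008000800080009089840a85928910816b800080008000800080008403800080008000800080008000800080008000800080008000910685928910816b800080008000800080008403800080008000800080008000800080008000800080008000800091e98910816b800080008000800080008403800080008000800080008000800080008000800080008000800080009412816b80008000800080008000840380008000800080008000800080008000800080008000800080008000800096b5815581a0821582e884e077f980008000800080008000800080008000800080008000800080008000800080009042833f842a85d189bf8000800080008000800080008000800080008000800080008000800080008000800080009094842a85d189bf8000800080008000800080008000800080008000800080008000800080008000800080008000911885d189bf80008000800080008000800080008000800080008000800080008000800080008000800080008000920e89bf8000800080008000800080008000800080008000800080008000800080008000800080008000800080009485800080008000800080008000800080008000800080008000800080008000800080008000800080008000800098eb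

def adjB (i j : Fin 22) : Bool := (nA >>> (22 * i.val + j.val)) % 2 == 1
def dd (i j : Fin 22) : ℕ := (nD >>> (3 * (22 * i.val + j.val))) % 8
def LL (i j : Fin 22) : ℤ := (((nL >>> (16 * (22 * i.val + j.val))) % 65536 : ℕ) : ℤ) - 32768

theorem adj_symm : ∀ i j, adjB i j = true → adjB j i = true := by decide +kernel
theorem adj_irr : ∀ i, ¬ adjB i i = true := by decide +kernel

def G : SimpleGraph (Fin 22) where
  Adj i j := adjB i j = true
  symm := ⟨fun i j h => adj_symm i j h⟩
  loopless := ⟨fun i h => adj_irr i h⟩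

instance : DecidableRel G.Adj := fun i j => inferInstanceAs (Decidable (adjB i j = true))

theorem reg : G.IsRegularOfDegree 5 := by
  have : ∀ v, G.degree v = 5 := by decide +kernel
  exact this

theorem dd_up : ∀ u v, dd u v ≤ 4 ∧ (u = v ∨ ∃ w, G.Adj w v ∧ dd u w < dd u v) := by
  decide +kernel

theorem dd_low : ∀ u v, G.Adj u v → dd u 6 ≤ dd v 6 + 1 := by decide +kernel

theorem edist_le (u v : Fin 22) : G.edist u v ≤ dd u v := by
  induction h : dd u v using Nat.strong_induction_on generalizing v with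
  | _ k ih =>
    rcases (dd_up u v).2 with rfl | ⟨w, hw, hlt⟩
    · simp
    · have h1 := ih (dd u w) (h ▸ hlt) w rfl
      have h2 : G.edist w v = 1 := SimpleGraph.edist_eq_one_iff_adj.mpr hw
      calc G.edist u v ≤ G.edist u w + G.edist w v := SimpleGraph.edist_triangle
        _ ≤ (dd u w : ℕ∞) + 1 := by rw [h2]; gcongr
        _ ≤ (k : ℕ∞) := by
          have : dd u w + 1 ≤ k := by omega
          exact_mod_cast this

theorem walk_low : ∀ {u v : Fin 22} (p : G.Walk u v), v = 6 → dd u 6 ≤ p.length := by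
  intro u v p
  induction p with
  | nil => rintro rfl; decide +kernel
  | cons h p ih =>
    intro hv
    have := ih hv
    have := dd_low _ _ h
    simp only [SimpleGraph.Walk.length_cons]; omega

theorem conn : G.Connected := by
  refine ⟨fun u v => ?_⟩
  apply SimpleGraph.reachable_of_edist_ne_top
  exact ne_top_of_le_ne_top (ENat.coe_ne_top _) (edist_le u v)

theorem ediam_eq : G.ediam = 4 := by
  apply le_antisymm
  · rw [SimpleGraph.ediam_le_iff]
    intro u v
    refine (edist_le u v).trans ?_
    exact_mod_cast (dd_up u v).1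
  · refine le_trans ?_ (SimpleGraph.edist_le_ediam (u := 0) (v := 6))
    obtain ⟨p, hp⟩ := (conn 0 6).exists_walk_length_eq_edist
    rw [← hp]
    have := walk_low p rfl
    have h5 : dd 0 6 = 4 := by decide +kernel
    rw [h5] at this
    exact_mod_cast this

theorem girth_le : G.girth ≤ 3 := by
  have h1 : G.Adj 8 12 := by decide +kernel
  have h2 : G.Adj 12 19 := by decide +kernel
  have h3 : G.Adj 19 8 := by decide +kernel
  let p : G.Walk 8 8 := .cons h1 (.cons h2 (.cons h3 .nil))
  have hp : p.IsCycle := by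
    simp only [p, SimpleGraph.Walk.isCycle_def, SimpleGraph.Walk.isTrail_def]
    refine ⟨by simp, by simp, by simp⟩
  have := SimpleGraph.girth_le_length hp
  simpa [p] using this

def AZ (i j : Fin 22) : ℤ := if G.Adj i j then 1 else 0
def pp (i : Fin 22) : ℤ := if i = 0 then 1 else if i = 6 then -1 else 0
def qq (i : Fin 22) : ℤ := AZ 0 i - AZ 6 i
def RR (i j : Fin 22) : ℤ :=
  65536 * ((if i = j then 223 else 0) - 100 * AZ i j + 100 * (1 + 3 * pp i * pp j + qq i * qq j)) -
    ∑ k, LL i k * LL j k

theorem RR_row : ∀ i, ∑ j, |RR i j| ≤ 2 * RR i i := by decide +kernel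
theorem RR_col : ∀ i, ∑ j, |RR j i| ≤ 2 * RR i i := by decide +kernel
theorem Ap : ∀ j, ∑ i, pp i * AZ i j = qq j := by decide +kernel
theorem Aq : ∀ j, ∑ i, qq i * AZ i j = 5 * pp j := by decide +kernel
theorem Ap' : ∀ j, ∑ i, AZ j i * pp i = qq j := by decide +kernel
theorem Aq' : ∀ j, ∑ i, AZ j i * qq i = 5 * pp j := by decide +kernel
theorem sp : ∑ i, pp i = 0 := by decide +kernel
theorem sq' : ∑ i, qq i = 0 := by decide +kernel

theorem dom {n : ℕ} (R : Fin n → Fin n → ℝ) (h1 : ∀ i, ∑ j, |R i j| ≤ 2 * R i i)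
    (h2 : ∀ i, ∑ j, |R j i| ≤ 2 * R i i) (x : Fin n → ℝ) :
    0 ≤ ∑ i, ∑ j, R i j * x i * x j := by
  have key : ∀ i j, -(|R i j| * x i ^ 2 / 2) - |R i j| * x j ^ 2 / 2 +
      (if i = j then 2 * R i i * x i ^ 2 else 0) ≤ R i j * x i * x j := by
    intro i j
    split_ifs with h
    · subst h; nlinarith [le_abs_self (R i i), sq_nonneg (x i)]
    · rcases abs_cases (R i j) with ⟨h, h'⟩ | ⟨h, h'⟩ <;> rw [h]
      · nlinarith [mul_nonneg h' (sq_nonneg (x i + x j))]
      · nlinarith [mul_nonneg (neg_nonneg.mpr h'.le) (sq_nonneg (x i - x j))]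
  refine le_trans ?_ (Finset.sum_le_sum fun i _ => Finset.sum_le_sum fun j _ => key i j)
  simp only [Finset.sum_add_distrib, Finset.sum_sub_distrib, Finset.sum_ite_eq, Finset.mem_univ,
    if_true, Finset.sum_neg_distrib]
  rw [Finset.sum_comm (f := fun i j => |R i j| * x j ^ 2 / 2)]
  simp only [← Finset.sum_div, ← Finset.sum_mul]
  have a1 : ∑ i, (∑ j, |R i j|) * x i ^ 2 ≤ ∑ i, 2 * R i i * x i ^ 2 :=
    Finset.sum_le_sum fun i _ => mul_le_mul_of_nonneg_right (h1 i) (sq_nonneg _)
  have a2 : ∑ i, (∑ j, |R j i|) * x i ^ 2 ≤ ∑ i, 2 * R i i * x i ^ 2 :=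
    Finset.sum_le_sum fun i _ => mul_le_mul_of_nonneg_right (h2 i) (sq_nonneg _)
  linarith

theorem eig_le (x : Fin 22 → ℝ) (l : ℝ) (hx : x ≠ 0) (hs : ∑ v, x v = 0)
    (h : ∀ i, ∑ j, (AZ i j : ℝ) * x j = l * x i) : l ≤ √5 := by
  by_contra hlt
  have hlt := not_le.mp hlt
  have h5 : (2.23 : ℝ) < √5 := Real.lt_sqrt_of_sq_lt (by norm_num)
  have h55 : √5 ^ 2 = 5 := Real.sq_sqrt (by norm_num)
  have tr : ∀ (a b : Fin 22 → ℤ), (∀ j, ∑ i, a i * AZ i j = b j) →
      ∑ j, (b j : ℝ) * x j = l * ∑ i, (a i : ℝ) * x i := by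
    intro a b hab
    simp only [← hab, Finset.mul_sum]
    push_cast
    simp only [Finset.sum_mul]
    rw [Finset.sum_comm]
    refine Finset.sum_congr rfl fun i _ => ?_
    simp only [mul_assoc, ← Finset.mul_sum, h i]; ring
  have t1 := tr _ _ Ap
  have t2 := tr _ _ Aq
  push_cast at t2
  simp only [mul_assoc, ← Finset.mul_sum] at t2
  set P := ∑ i, (pp i : ℝ) * x i with hP
  set Q := ∑ i, (qq i : ℝ) * x i with hQ
  have P0 : P = 0 := by
    have : (l ^ 2 - 5) * P = 0 := by rw [t1] at t2; linarith
    refine (mul_eq_zero.mp this).resolve_left ?_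
    nlinarith
  have Q0 : Q = 0 := by rw [t1, P0, mul_zero]
  have hd := dom (fun i j => (RR i j : ℝ))
    (fun i => by exact_mod_cast RR_row i) (fun i => by exact_mod_cast RR_col i) x
  have e : ∑ i, ∑ j, (RR i j : ℝ) * x i * x j =
      65536 * ((223 - 100 * l) * ∑ i, x i ^ 2 + 100 * ((∑ i, x i) ^ 2 + 3 * P ^ 2 + Q ^ 2)) -
        ∑ k, (∑ i, (LL i k : ℝ) * x i) ^ 2 := by
    have e1 : ∑ k, (∑ i, (LL i k : ℝ) * x i) ^ 2 =
        ∑ i, ∑ j, (∑ k, (LL i k : ℝ) * LL j k) * x i * x j := by
      simp only [sq, Finset.sum_mul_sum]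
      simp only [Finset.sum_mul]
      rw [Finset.sum_comm]
      refine Finset.sum_congr rfl fun i _ => ?_
      rw [Finset.sum_comm]
      refine Finset.sum_congr rfl fun j _ => Finset.sum_congr rfl fun k _ => by ring
    have e2 : ∑ i, ∑ j, (AZ i j : ℝ) * x i * x j = l * ∑ i, x i ^ 2 := by
      rw [Finset.mul_sum]
      refine Finset.sum_congr rfl fun i _ => ?_
      have : ∑ j, (AZ i j : ℝ) * x i * x j = x i * ∑ j, (AZ i j : ℝ) * x j := by
        rw [Finset.mul_sum]; exact Finset.sum_congr rfl fun j _ => by ring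
      rw [this, h i]; ring
    have e3 : ∀ a : Fin 22 → ℝ, (∑ i, a i * x i) ^ 2 = ∑ i, ∑ j, a i * a j * x i * x j := by
      intro a; simp only [sq, Finset.sum_mul_sum]
      exact Finset.sum_congr rfl fun j _ => Finset.sum_congr rfl fun k _ => by ring
    have e4 : ∑ i, ∑ j, (if i = j then (223 : ℝ) else 0) * x i * x j = 223 * ∑ i, x i ^ 2 := by
      rw [Finset.mul_sum]
      refine Finset.sum_congr rfl fun i _ => ?_
      simp [sq, mul_assoc]
    have e5 := e3 fun _ => 1
    simp only [one_mul] at e5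
    rw [e1, hP, hQ, e3, e3, e5, sub_mul, mul_assoc 100 l, ← e2, ← e4]
    simp only [Finset.mul_sum, ← Finset.sum_add_distrib, ← Finset.sum_sub_distrib]
    refine Finset.sum_congr rfl fun i _ => Finset.sum_congr rfl fun j _ => ?_
    simp only [RR]; push_cast; ring
  rw [e, hs, P0, Q0] at hd
  have hpos : 0 < ∑ i, x i ^ 2 := by
    obtain ⟨i, hi⟩ := Function.ne_iff.mp hx
    exact Finset.sum_pos' (fun i _ => sq_nonneg _) ⟨i, Finset.mem_univ _, pow_pos' hi⟩
  have : 0 ≤ ∑ k, (∑ i, (LL i k : ℝ) * x i) ^ 2 := Finset.sum_nonneg fun _ _ => sq_nonneg _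
  nlinarith
where pow_pos' {a : ℝ} (h : a ≠ 0) : 0 < a ^ 2 := by positivity

theorem lap_iff (x : Fin 22 → ℝ) (ν : ℝ) :
    (G.lapMatrix ℝ).mulVec x = ν • x ↔ ∀ i, ∑ j, (AZ i j : ℝ) * x j = (5 - ν) * x i := by
  have hd : ∀ v, (G.degMatrix ℝ *ᵥ x) v = 5 * x v := by
    intro v; rw [SimpleGraph.degMatrix_mulVec_apply, reg v]; norm_num
  have hA : ∀ v, (G.adjMatrix ℝ *ᵥ x) v = ∑ j, (AZ v j : ℝ) * x j := by
    intro v
    simp only [Matrix.mulVec, dotProduct, AZ, SimpleGraph.adjMatrix_apply]
    refine Finset.sum_congr rfl fun j _ => ?_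
    split_ifs <;> simp
  rw [SimpleGraph.lapMatrix, Matrix.sub_mulVec]
  constructor
  · intro h v
    have := congrFun h v
    simp only [Pi.sub_apply, hd, hA, Pi.smul_apply, smul_eq_mul] at this ⊢
    linarith
  · intro h; ext v
    have := h v
    simp only [Pi.sub_apply, hd, hA, Pi.smul_apply, smul_eq_mul] at this ⊢
    linarith

theorem isAC : IsAC G (5 - √5) := by
  have h55 : √5 ^ 2 = 5 := Real.sq_sqrt (by norm_num)
  constructor
  · refine ⟨fun w => qq w + pp w * √5, ?_, ?_, ?_⟩
    · intro h
      have := congrFun h 1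
      have h1 : qq 1 = 1 := by decide +kernel
      have h2 : pp 1 = 0 := by decide +kernel
      simp [h1, h2] at this
    · rw [Finset.sum_add_distrib, ← Finset.sum_mul, ← Int.cast_sum, ← Int.cast_sum, sp, sq']
      simp
    · rw [lap_iff]
      intro v
      have h1 := congrArg (Int.cast : ℤ → ℝ) (Ap' v)
      have h2 := congrArg (Int.cast : ℤ → ℝ) (Aq' v)
      push_cast at h1 h2
      simp only [mul_add, Finset.sum_add_distrib, ← mul_assoc, ← Finset.sum_mul, h1, h2]
      linear_combination (-(pp v : ℝ)) * h55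
  · rintro ν ⟨x, hx, hs, h⟩
    rw [lap_iff] at h
    have := eig_le x _ hx hs h
    linarith

theorem root_iff (t : ℝ) (hs : 0 < sin t) (hc : 0 < cos t) (h3 : cos (2 * t) ≠ 0) :
    tan (2 * t) = -(5 / 3 * tan t) ↔ 16 * cos t ^ 2 = 5 := by
  rw [tan_eq_sin_div_cos, tan_eq_sin_div_cos, div_eq_iff h3, sin_two_mul, cos_two_mul]
  constructor
  · intro h
    field_simp at h
    linarith
  · intro h
    field_simp
    linarith

theorem theta : IsLeast {t | EvenRoot 5 2 t} (arccos (√5 / 4)) ∧
    2 * √4 * cos (arccos (√5 / 4)) = √5 := by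
  have hr : √5 ^ 2 = 5 := Real.sq_sqrt (by norm_num)
  have hr1 : (2.2 : ℝ) < √5 := Real.lt_sqrt_of_sq_lt (by norm_num)
  have hr2 : √5 < 3 := (Real.sqrt_lt' (by norm_num)).mpr (by norm_num)
  have h4 : √4 = 2 := by rw [show (4 : ℝ) = 2 ^ 2 by norm_num]; exact Real.sqrt_sq (by norm_num)
  have hq0 : 0 < √5 / 4 := by linarith
  have hq1 : √5 / 4 < 1 := by linarith
  have hcos : cos (arccos (√5 / 4)) = √5 / 4 := cos_arccos (by linarith) hq1.le
  have hpos : 0 < arccos (√5 / 4) := arccos_pos.mpr hq1
  have hlt : arccos (√5 / 4) < π / 2 := arccos_lt_pi_div_two.mpr hq0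
  have e3 : ((5 : ℕ) : ℝ) / (((5 : ℕ) : ℝ) - 2) = 5 / 3 := by norm_num
  refine ⟨⟨?_, ?_⟩, by rw [hcos, h4]; ring⟩
  · set θ := arccos (√5 / 4)
    have hc : 0 < cos θ := by rw [hcos]; exact hq0
    have h3 : cos (2 * θ) ≠ 0 := by
      rw [cos_two_mul, hcos]; intro h; nlinarith
    refine ⟨hpos, by simpa using h3, hc.ne', ?_⟩
    rw [e3]; push_cast
    rw [root_iff θ (sin_pos_of_pos_of_lt_pi hpos (by linarith [pi_pos])) hc h3, hcos]; nlinarith
  · rintro t ⟨ht, h3, -, h⟩
    by_contra hcon
    have hcon := not_le.mp hcon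
    rw [e3] at h; push_cast at h h3
    have hcc : cos (arccos (√5 / 4)) < cos t :=
      cos_lt_cos_of_nonneg_of_le_pi ht.le (by linarith [pi_pos]) hcon
    rw [hcos] at hcc
    have hc : 0 < cos t := by linarith
    rw [root_iff t (sin_pos_of_pos_of_lt_pi ht (by linarith [pi_pos])) hc h3] at h
    nlinarith

theorem result : ¬ ∀ (n d K : ℕ) (G : SimpleGraph (Fin n)) [DecidableRel G.Adj],
    3 ≤ d → 1 ≤ K → DiamMaxEven G d K →
      G.girth = 2 * K ∨ G.girth = 2 * K + 1 ∨ G.girth = 2 * K + 2 := by
  intro H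
  have h := H 22 5 2 G (by norm_num) (by norm_num)
    ⟨conn, reg, by simp [SimpleGraph.diam, ediam_eq], _, theta.1, by
      have e3 : ((5 : ℕ) : ℝ) - 1 = 4 := by norm_num
      rw [e3, theta.2]; exact_mod_cast isAC⟩
  have := girth_le
  omega

end Pool.Agent.Results.MP_67c69b_co.EvenGirth
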